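import Mathlib

set_option autoImplicit false

open Filter Topology Set

namespace Pool.Agent.Results.MP_0f8365_gt.CountableFactor

universe u v

/-- `C_p(X)`: the continuous real functions on `X` with the topology of pointwise convergence,
that is, as a subspace of the product `X → ℝ`. -/
def Cp (X : Type u) [TopologicalSpace X] : Type u := {f : X → ℝ // Continuous f}

instance (X : Type u) [TopologicalSpace X] : TopologicalSpace (Cp X) :=
  inferInstanceAs (TopologicalSpace {f : X → ℝ // Continuous f})

/-- `A` is countably compact in `Z`: each infinite subset of `A` has an accumulation point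
in `Z`. -/
def CountablyCompactIn {Z : Type u} [TopologicalSpace Z] (A : Set Z) : Prop :=
  ∀ B ⊆ A, B.Infinite → ∃ z : Z, AccPt z (𝓟 B)

/-- `Z` is a g-space: the closure of every set that is countably compact in `Z` is compact. -/
def IsGSpace (Z : Type u) [TopologicalSpace Z] : Prop :=
  ∀ A : Set Z, CountablyCompactIn A → IsCompact (closure A)

/-- `X` is a Grothendieck space: every subspace of `C_p(X)` is a g-space. -/
def Grothendieck (X : Type u) [TopologicalSpace X] : Prop :=
  ∀ S : Set (Cp X), IsGSpace S

/-- `X` is a weakly Grothendieck space: `C_p(X)` is a g-space. -/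
def WeaklyGrothendieck (X : Type u) [TopologicalSpace X] : Prop := IsGSpace (Cp X)

/-! ### General facts -/

lemma accPt_image {Z : Type u} {Z' : Type v} [TopologicalSpace Z] [T1Space Z]
    [TopologicalSpace Z'] {e : Z → Z'} {z : Z} (he : ContinuousAt e z) {B : Set Z}
    (hinj : InjOn e B) (h : AccPt z (𝓟 B)) : AccPt (e z) (𝓟 (e '' B)) := by
  rw [accPt_iff_nhds] at h ⊢
  intro V hV
  obtain ⟨y, ⟨hyU, hyB⟩, hyz⟩ := h (e ⁻¹' V) (he hV)
  by_cases hey : e y = e z
  · obtain ⟨y', ⟨⟨hyU', hy'⟩, hyB'⟩, hyz'⟩ := h (e ⁻¹' V ∩ {y}ᶜ)
      (inter_mem (he hV) (isOpen_compl_singleton.mem_nhds (fun h => hyz h.symm)))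
    refine ⟨e y', ⟨hyU', mem_image_of_mem _ hyB'⟩, fun h' => hy' ?_⟩
    exact hinj hyB' hyB (h'.trans hey.symm)
  · exact ⟨e y, ⟨hyU, mem_image_of_mem _ hyB⟩, hey⟩

lemma countablyCompactIn_image {Z : Type u} {Z' : Type v} [TopologicalSpace Z] [T1Space Z]
    [TopologicalSpace Z'] {e : Z → Z'} (he : Continuous e) {A : Set Z}
    (hA : CountablyCompactIn A) : CountablyCompactIn (e '' A) := by
  intro B hB hinf
  obtain ⟨B', hB', hbij⟩ := Set.SurjOn.exists_bijOn_subset (f := e) (s := A) (t := B) hB
  have hinf' : B'.Infinite := by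
    intro hf
    apply hinf
    rw [← hbij.image_eq]
    exact hf.image e
  obtain ⟨z, hz⟩ := hA B' hB' hinf'
  refine ⟨e z, ?_⟩
  have := accPt_image he.continuousAt (B := B') hbij.injOn hz
  rwa [hbij.image_eq] at this

/-- Compactness of closures together with sequential approximation. -/
def Angelic (Z : Type u) [TopologicalSpace Z] : Prop :=
  ∀ A : Set Z, CountablyCompactIn A → IsCompact (closure A) ∧
    ∀ p ∈ closure A, ∃ a : ℕ → Z, (∀ n, a n ∈ A) ∧ Tendsto a atTop (𝓝 p)

/-- A space all of whose subspaces are g-spaces is angelic. -/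
lemma angelic_of_hereditary {Z : Type u} [TopologicalSpace Z] [T2Space Z]
    (h : ∀ S : Set Z, IsGSpace S) : Angelic Z := by
  intro A hA
  constructor
  · have h1 : CountablyCompactIn ((↑) ⁻¹' A : Set (univ : Set Z)) := by
      have := countablyCompactIn_image (e := fun z : Z => (⟨z, mem_univ z⟩ : (univ : Set Z)))
        (by fun_prop) hA
      have e1 : (fun z : Z => (⟨z, mem_univ z⟩ : (univ : Set Z))) '' A =
          ((↑) ⁻¹' A : Set (univ : Set Z)) := by
        ext ⟨z, hz⟩
        simp
      rwa [e1] at this
    have h2 := (h univ _ h1).image continuous_subtype_val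
    have h3 : A ⊆ (↑) '' (closure ((↑) ⁻¹' A : Set (univ : Set Z))) := by
      intro a ha
      exact ⟨⟨a, mem_univ a⟩, subset_closure ha, rfl⟩
    exact h2.of_isClosed_subset isClosed_closure (closure_minimal h3 h2.isClosed)
  · intro p hp
    by_contra hcon
    push Not at hcon
    have hpA : p ∉ A := fun hpA => hcon (fun _ => p) (fun _ => hpA) tendsto_const_nhds
    have hcc : CountablyCompactIn ((↑) ⁻¹' A : Set ({p}ᶜ : Set Z)) := by
      intro B hB hinf
      by_contra hno
      push Not at hno
      have hinf' : ((↑) '' B : Set Z).Infinite := hinf.image Subtype.val_injective.injOn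
      have hBA : ((↑) '' B : Set Z) ⊆ A := by
        rintro - ⟨b, hb, rfl⟩
        exact hB hb
      set b : ℕ → Z := fun n => (hinf'.natEmbedding _ n : Z) with hb
      have hbinj : Function.Injective b :=
        Subtype.val_injective.comp (hinf'.natEmbedding _).injective
      have hbB : ∀ n, b n ∈ ((↑) '' B : Set Z) := fun n => (hinf'.natEmbedding _ n).2
      apply hcon b (fun n => hBA (hbB n))
      rw [tendsto_atTop']
      intro U hU
      by_contra hfar
      push Not at hfar
      have hinf2 : (b '' {n | b n ∉ U}).Infinite := by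
        apply Set.Infinite.image hbinj.injOn
        rw [Set.infinite_iff_exists_gt]
        intro n
        obtain ⟨m, hm, hm'⟩ := hfar (n + 1)
        exact ⟨m, hm', by omega⟩
      obtain ⟨z, hz⟩ := hA (b '' {n | b n ∉ U}) (by
        rintro - ⟨n, -, rfl⟩
        exact hBA (hbB n)) hinf2
      have hzp : z ≠ p := by
        rintro rfl
        rw [accPt_iff_nhds] at hz
        obtain ⟨y, ⟨hy1, ⟨n, hn, rfl⟩⟩, -⟩ := hz U hU
        exact hn hy1
      apply hno ⟨z, hzp⟩
      rw [accPt_iff_nhds] at hz ⊢
      intro V hV
      rw [mem_nhds_induced] at hV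
      obtain ⟨V', hV', hVV⟩ := hV
      obtain ⟨y, ⟨hy1, ⟨n, hn, rfl⟩⟩, hy2⟩ := hz V' hV'
      obtain ⟨c, hc, hcb⟩ := hbB n
      refine ⟨c, ⟨hVV (by rw [mem_preimage, hcb]; exact hy1), hc⟩, ?_⟩
      rintro rfl
      exact hy2 hcb.symm
    have h2 := (h _ _ hcc).image continuous_subtype_val
    have h3 : A ⊆ (↑) '' (closure ((↑) ⁻¹' A : Set ({p}ᶜ : Set Z))) := by
      intro a ha
      exact ⟨⟨a, fun hap => hpA (hap ▸ ha)⟩, subset_closure ha, rfl⟩
    obtain ⟨q, -, hq⟩ := closure_minimal h3 h2.isClosed hp
    exact q.2 hq

/-- Every space embedded in an angelic space is a g-space. -/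
lemma gSpace_of_embedding {S : Type u} {Z : Type v} [TopologicalSpace S] [TopologicalSpace Z]
    [T2Space Z] (hZ : Angelic Z) {e : S → Z} (he : IsEmbedding e) : IsGSpace S := by
  intro A hA
  have : T2Space S := he.t2Space
  have hA' := countablyCompactIn_image he.continuous hA
  obtain ⟨hcpt, hseq⟩ := hZ _ hA'
  have hrange : closure (e '' A) ⊆ range e := by
    intro p hp
    obtain ⟨a, haA, ha⟩ := hseq p hp
    by_cases hfin : (range a).Finite
    · -- some value is taken infinitely often
      have hcl : IsClosed (range a) := hfin.isClosed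
      have hpr : p ∈ range a := hcl.mem_of_tendsto ha (Eventually.of_forall fun n => ⟨n, rfl⟩)
      obtain ⟨n, rfl⟩ := hpr
      obtain ⟨b, -, hb⟩ := haA n
      exact ⟨b, hb⟩
    · choose s hsA hs using haA
      have hinf : (range s).Infinite := by
        intro hf
        apply hfin
        have : range a = e '' (range s) := by
          rw [← range_comp]
          congr 1
          ext n
          exact (hs n).symm
        rw [this]
        exact hf.image e
      obtain ⟨z, hz⟩ := hA (range s) (by rintro - ⟨n, rfl⟩; exact hsA n) hinf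
      have hz2 := accPt_image he.continuous.continuousAt (B := range s) he.injective.injOn hz
      refine ⟨z, ?_⟩
      -- the accumulation point of a convergent sequence is its limit
      by_contra hne
      obtain ⟨U, V, hU, hV, hzU, hpV, hdisj⟩ := t2_separation hne
      have hev : ∀ᶠ n in atTop, a n ∈ V := ha (hV.mem_nhds hpV)
      obtain ⟨N, hN⟩ := eventually_atTop.mp hev
      have hfinU : (U ∩ (e '' range s)) ⊆ a '' (Iio N) := by
        rintro - ⟨hyU, ⟨-, ⟨n, rfl⟩, rfl⟩⟩
        refine ⟨n, ?_, (hs n).symm⟩
        by_contra hn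
        have h1 := hN n (not_lt.mp hn)
        rw [← hs n] at h1
        exact (Set.disjoint_left.mp hdisj) hyU h1
      have hfin2 : (U ∩ (e '' range s)).Finite := ((finite_Iio N).image a).subset hfinU
      rw [accPt_iff_nhds] at hz2
      have hopen : (U ∩ (e '' range s)) \ {e z} ⊆ (U ∩ (e '' range s)) := sdiff_subset
      have hfin3 := hfin2.subset hopen
      obtain ⟨y, ⟨⟨hyU, hy1⟩, hy2⟩, hy3⟩ := hz2 (U ∩ ((U ∩ (e '' range s)) \ {e z})ᶜ)
        (inter_mem (hU.mem_nhds hzU) (hfin3.isClosed.isOpen_compl.mem_nhds
          (fun h => h.2 rfl)))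
      exact hy1 ⟨⟨hyU, hy2⟩, hy3⟩
  have h4 : closure A = e ⁻¹' (closure (e '' A)) := he.closure_eq_preimage_closure_image A
  rw [h4]
  rw [he.isCompact_iff, image_preimage_eq_of_subset hrange]
  exact hcpt

/-! ### Function spaces -/

instance (X : Type u) [TopologicalSpace X] : T2Space (Cp X) :=
  inferInstanceAs (T2Space {f : X → ℝ // Continuous f})

lemma Cp_tendsto {X : Type u} [TopologicalSpace X] {ι : Type*} {l : Filter ι} {a : ι → Cp X}
    {p : Cp X} : Tendsto a l (𝓝 p) ↔ ∀ x, Tendsto (fun i => (a i).1 x) l (𝓝 (p.1 x)) := by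
  have h : Tendsto a l (𝓝 p) ↔ Tendsto (fun i => (a i).1) l (𝓝 p.1) :=
    tendsto_subtype_rng
  rw [h, tendsto_pi_nhds]

lemma Cp_continuous {X : Type u} [TopologicalSpace X] {Z : Type v} [TopologicalSpace Z]
    {a : Z → Cp X} : Continuous a ↔ ∀ x, Continuous (fun z => (a z).1 x) := by
  constructor
  · intro h x
    exact (continuous_apply x).comp (continuous_subtype_val.comp h)
  · intro h
    exact Continuous.subtype_mk (continuous_pi h) _

section Power

variable {X : Type u} [TopologicalSpace X] {Y : Type v} [Countable Y]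

/-- The distance-like function to `p`. -/
noncomputable def term (p f : Y → Cp X) (y : Y) (x : X) : ℝ :=
  (1 / 2 : ℝ) ^ ((Countable.exists_injective_nat Y).choose y) *
    min |(f y).1 x - (p y).1 x| 1

lemma term_nonneg (p f : Y → Cp X) (y : Y) (x : X) : 0 ≤ term p f y x := by
  unfold term
  positivity

lemma term_le (p f : Y → Cp X) (y : Y) (x : X) :
    ‖term p f y x‖ ≤ (1 / 2 : ℝ) ^ ((Countable.exists_injective_nat Y).choose y) := by
  rw [Real.norm_of_nonneg (term_nonneg p f y x)]
  unfold term
  have h : (0 : ℝ) < (1 / 2 : ℝ) ^ ((Countable.exists_injective_nat Y).choose y) := by positivity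
  calc _ ≤ (1 / 2 : ℝ) ^ ((Countable.exists_injective_nat Y).choose y) * 1 := by
        gcongr
        exact min_le_right _ _
    _ = _ := mul_one _

lemma summable_weights :
    Summable (fun y : Y => (1 / 2 : ℝ) ^ ((Countable.exists_injective_nat Y).choose y)) :=
  (summable_geometric_of_lt_one (by norm_num) (by norm_num)).comp_injective
    (Countable.exists_injective_nat Y).choose_spec

noncomputable def Phi (p f : Y → Cp X) : Cp X :=
  ⟨fun x => ∑' y, term p f y x, by
    refine continuous_tsum (fun y => ?_) summable_weights (fun y x => term_le p f y x)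
    unfold term
    have h1 := (f y).2
    have h2 := (p y).2
    fun_prop⟩

lemma Phi_self (p : Y → Cp X) : (Phi p p).1 = fun _ => 0 := by
  funext x
  simp [Phi, term]

lemma continuous_Phi (p : Y → Cp X) : Continuous (Phi p) := by
  rw [Cp_continuous]
  intro x
  refine continuous_tsum (fun y => ?_) summable_weights (fun y f => term_le p f y x)
  unfold term
  have h1 : Continuous (fun f : Y → Cp X => (f y).1 x) :=
    (continuous_apply x).comp (continuous_subtype_val.comp (continuous_apply y))
  exact continuous_const.mul (((h1.sub continuous_const).abs).min continuous_const)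

/-- The countable power of `C_p(X)` is angelic if `X` is a Grothendieck space. -/
lemma angelic_power (hX : Grothendieck X) : Angelic (Y → Cp X) := by
  have hang : Angelic (Cp X) := angelic_of_hereditary hX
  intro A hA
  constructor
  · have hK : ∀ y : Y, IsCompact (closure ((fun f : Y → Cp X => f y) '' A)) := fun y =>
      (hang _ (countablyCompactIn_image (continuous_apply y) hA)).1
    have hprod : IsCompact (Set.pi univ fun y : Y =>
        closure ((fun f : Y → Cp X => f y) '' A)) := isCompact_univ_pi hK
    refine hprod.of_isClosed_subset isClosed_closure (closure_minimal ?_ hprod.isClosed)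
    intro f hf y _
    exact subset_closure (mem_image_of_mem _ hf)
  · intro p hp
    obtain ⟨-, hseq⟩ := hang _ (countablyCompactIn_image (continuous_Phi p) hA)
    obtain ⟨b, hbA, hb⟩ := hseq (Phi p p)
      (image_closure_subset_closure_image (continuous_Phi p) (mem_image_of_mem _ hp))
    choose a haA ha using hbA
    refine ⟨a, haA, ?_⟩
    rw [tendsto_pi_nhds]
    intro y
    rw [Cp_tendsto]
    intro x
    rw [Cp_tendsto] at hb
    have hbx := hb x
    rw [Phi_self] at hbx
    simp only at hbx
    set w : ℝ := (1 / 2 : ℝ) ^ ((Countable.exists_injective_nat Y).choose y) with hw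
    have hwpos : 0 < w := by positivity
    have hle : ∀ n, w * min |((a n) y).1 x - (p y).1 x| 1 ≤ (b n).1 x := by
      intro n
      rw [← ha n]
      change term p (a n) y x ≤ ∑' y, term p (a n) y x
      exact (Summable.of_norm_bounded summable_weights (fun y => term_le p (a n) y x)).le_tsum y
        (fun z _ => term_nonneg p (a n) z x)
    have h0 : Tendsto (fun n => w * min |((a n) y).1 x - (p y).1 x| 1) atTop (𝓝 0) :=
      squeeze_zero (fun n => by positivity) hle hbx
    have h1 : Tendsto (fun n => min |((a n) y).1 x - (p y).1 x| 1) atTop (𝓝 0) := by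
      have := h0.const_mul w⁻¹
      simp only [mul_zero] at this
      refine this.congr fun n => ?_
      rw [← mul_assoc, inv_mul_cancel₀ hwpos.ne', one_mul]
    rw [tendsto_iff_norm_sub_tendsto_zero]
    refine h1.congr' ?_
    have hev : ∀ᶠ n in atTop, min |((a n) y).1 x - (p y).1 x| 1 < 1 :=
      h1.eventually_lt_const one_pos
    filter_upwards [hev] with n hn
    rw [Real.norm_eq_abs]
    rcases min_lt_iff.mp hn with h | h
    · exact min_eq_left h.le
    · exact absurd h (lt_irrefl _)

end Power

/-- Restriction of functions on `X × Y` to the slices. -/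
def slices (X : Type u) (Y : Type v) [TopologicalSpace X] [TopologicalSpace Y] :
    Cp (X × Y) → (Y → Cp X) :=
  fun f y => ⟨fun x => f.1 (x, y), f.2.comp (by fun_prop)⟩

lemma slices_embedding (X : Type u) (Y : Type v) [TopologicalSpace X] [TopologicalSpace Y] :
    IsEmbedding (slices X Y) := by
  constructor
  · rw [isInducing_iff_nhds]
    intro f
    apply le_antisymm
    · rw [← tendsto_iff_comap]
      have : Continuous (slices X Y) := by
        refine continuous_pi fun y => ?_
        rw [Cp_continuous]
        intro x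
        exact (continuous_apply (x, y)).comp continuous_subtype_val
      exact this.continuousAt
    · have h : Tendsto (fun g : Cp (X × Y) => g) (comap (slices X Y) (𝓝 (slices X Y f)))
          (𝓝 f) := by
        rw [Cp_tendsto]
        rintro ⟨x, y⟩
        have h1 : Tendsto (fun g : Cp (X × Y) => slices X Y g) (comap (slices X Y)
          (𝓝 (slices X Y f))) (𝓝 (slices X Y f)) := tendsto_comap
        rw [tendsto_pi_nhds] at h1
        have h2 := h1 y
        rw [Cp_tendsto] at h2
        exact h2 x
      exact h
  · intro f g h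
    apply Subtype.ext
    funext ⟨x, y⟩
    have h1 := congrFun h y
    exact congrFun (congrArg Subtype.val h1) x

/-- The product of a Grothendieck space with a countable space is a Grothendieck space. -/
theorem result (X : Type u) (Y : Type v) [TopologicalSpace X] [TopologicalSpace Y] [T35Space X]
    [T35Space Y] [Countable Y] (hX : Grothendieck X) : Grothendieck (X × Y) := by
  intro S
  exact gSpace_of_embedding (angelic_power (Y := Y) hX)
    ((slices_embedding X Y).comp IsEmbedding.subtypeVal)

end Pool.Agent.Results.MP_0f8365_gt.CountableFactor
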